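import Mathlib
import Pool.Agent.Helper968.Zalgaller.Data

/-!
The checker for the covering certificate, its run, and its soundness.
-/

namespace Pool.Agent.Helper968.Zalgaller

/-- evaluate a natural number before passing it on -/
def forceN {α : Type} (n : ℕ) (k : ℕ → α) : α :=
  match n with
  | 0 => k 0
  | m + 1 => k (m + 1)

/-- evaluate an integer before passing it on -/
def forceZ {α : Type} (n : ℤ) (k : ℤ → α) : α :=
  match n with
  | Int.ofNat m => forceN m fun m => k (Int.ofNat m)
  | Int.negSucc m => forceN m fun m => k (Int.negSucc m)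

theorem forceN_eq {α : Type} (n : ℕ) (k : ℕ → α) : forceN n k = k n := by
  cases n <;> rfl

theorem forceZ_eq {α : Type} (n : ℤ) (k : ℤ → α) : forceZ n k = k n := by
  cases n <;> simp [forceZ, forceN_eq]

/-- nonnegativity test -/
def nn : ℤ → Bool
  | Int.ofNat _ => true
  | Int.negSucc _ => false

theorem nn_sound {z : ℤ} (h : nn z = true) : 0 ≤ z := by
  cases z with
  | ofNat a => exact Int.natCast_nonneg a
  | negSucc a => simp [nn] at h

/-- integer dot product -/
def dot (a b : V3) : ℤ := a.x * b.x + a.y * b.y + a.z * b.z

/-- `⟨v, g⟩ ≥ C |g|` -/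
def good (v g : V3) : Bool :=
  forceZ (dot v g) fun d => nn d && nn (d * d - 9996600289 * dot g g)

/-- `al * a + be * b`, evaluated -/
def comb {α : Type} (al be : ℤ) (a b : V3) (k : V3 → α) : α :=
  forceZ (al * a.x + be * b.x) fun x =>
  forceZ (al * a.y + be * b.y) fun y =>
  forceZ (al * a.z + be * b.z) fun z => k ⟨x, y, z⟩

/-- entry of the polygon -/
def Pn (i : ℕ) : V3 := P.getD i ⟨0, 0, 0⟩

/-- leaf test -/
def leaf (q : ℕ) (a b c : V3) : Bool :=
  comb 1 (-1) (Pn (q / 47 % 47)) (Pn (q % 47)) fun v => good v a && good v b && good v c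

/-- first weight -/
def wt1 (t : ℕ) : ℕ := match t with
  | 0 => 1
  | 1 => 2
  | 2 => 1
  | 3 => 3
  | _ => 2

/-- second weight -/
def wt2 (t : ℕ) : ℕ := match t with
  | 0 => 1
  | 1 => 1
  | 2 => 2
  | 3 => 2
  | _ => 3

/-- the checker: the code is read in preorder; the rest of the code is returned -/
def chk : ℕ → List ℕ → V3 → V3 → V3 → Option (List ℕ)
  | 0, _, _, _, _ => none
  | _ + 1, [], _, _, _ => none
  | f + 1, k :: l, a, b, c =>
    if Nat.ble 465 k then
      (if leaf (k - 465) a b c then some l else none)
    else
      forceN (wt1 ((k / 3) % 5) * 2 ^ (k / 15 - 15)) fun al =>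
      forceN (wt2 ((k / 3) % 5) * 2 ^ (15 - k / 15)) fun be =>
      match k % 3 with
      | 0 => comb al be a b fun m =>
          match chk f l a m c with
          | none => none
          | some l' => chk f l' m b c
      | 1 => comb al be b c fun m =>
          match chk f l b m a with
          | none => none
          | some l' => chk f l' m c a
      | _ => comb al be c a fun m =>
          match chk f l c m b with
          | none => none
          | some l' => chk f l' m a b

/-- whole octant -/
def chkAll (l : List ℕ) (s1 s2 : ℤ) : Bool :=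
  match chk 60 l ⟨s1, 0, 0⟩ ⟨0, s2, 0⟩ ⟨0, 0, 1⟩ with
  | some [] => true
  | _ => false

set_option maxRecDepth 100000 in
theorem okPP : chkAll codePP 1 1 = true := by decide +kernel

set_option maxRecDepth 100000 in
theorem okMM : chkAll codeMM (-1) (-1) = true := by decide +kernel

set_option maxRecDepth 100000 in
theorem okPM : chkAll codePM 1 (-1) = true := by decide +kernel

set_option maxRecDepth 100000 in
theorem okMP : chkAll codeMP (-1) 1 = true := by decide +kernel

end Pool.Agent.Helper968.Zalgaller
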