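import Mathlib

/-!
Polygonal curves, their length, and scaling.
-/

namespace Pool.Agent.Helper968.Zalgaller

open scoped InnerProductSpace ENNReal

/-- clamp to the unit interval -/
noncomputable def cl (x : ℝ) : ℝ := max 0 (min x 1)

theorem cl_mono : Monotone cl := fun _ _ h => max_le_max le_rfl (min_le_min h le_rfl)

theorem cl_le (x : ℝ) : cl x ≤ 1 := max_le zero_le_one (min_le_right _ _)

theorem cl_nonneg (x : ℝ) : 0 ≤ cl x := le_max_left _ _

theorem cl_of_le {x : ℝ} (h : x ≤ 0) : cl x = 0 := by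
  rw [cl, min_eq_left (h.trans zero_le_one), max_eq_left h]

theorem cl_of_ge {x : ℝ} (h : 1 ≤ x) : cl x = 1 := by
  rw [cl, min_eq_right h, max_eq_right zero_le_one]

/-- the polygonal curve with vertices `Q 0, …, Q N` -/
noncomputable def poly (N : ℕ) (Q : ℕ → EuclideanSpace ℝ (Fin 3)) :
    C(unitInterval, EuclideanSpace ℝ (Fin 3)) where
  toFun t := Q 0 + ∑ i ∈ Finset.range N, cl ((N : ℝ) * (t : ℝ) - i) • (Q (i + 1) - Q i)
  continuous_toFun := by
    unfold cl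
    fun_prop

theorem poly_vertex {N : ℕ} (hN : 0 < N) (Q : ℕ → EuclideanSpace ℝ (Fin 3)) {j : ℕ} (hj : j ≤ N) :
    ∃ t : unitInterval, poly N Q t = Q j := by
  have hN' : (0 : ℝ) < N := by exact_mod_cast hN
  refine ⟨⟨(j : ℝ) / N, by positivity, ?_⟩, ?_⟩
  · rw [div_le_one hN']
    exact_mod_cast hj
  · show Q 0 + ∑ i ∈ Finset.range N, cl ((N : ℝ) * ((j : ℝ) / N) - i) • (Q (i + 1) - Q i) = Q j
    have e : (N : ℝ) * ((j : ℝ) / N) = j := by field_simp
    rw [e, ← Finset.sum_range_add_sum_Ico _ hj]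
    have h1 : ∑ i ∈ Finset.range j, cl ((j : ℝ) - i) • (Q (i + 1) - Q i)
        = ∑ i ∈ Finset.range j, (Q (i + 1) - Q i) := by
      refine Finset.sum_congr rfl fun i hi => ?_
      rw [cl_of_ge, one_smul]
      have : (i : ℝ) + 1 ≤ j := by exact_mod_cast Finset.mem_range.mp hi
      linarith
    have h2 : ∑ i ∈ Finset.Ico j N, cl ((j : ℝ) - i) • (Q (i + 1) - Q i) = 0 := by
      refine Finset.sum_eq_zero fun i hi => ?_
      rw [cl_of_le, zero_smul]
      have : (j : ℝ) ≤ i := by exact_mod_cast (Finset.mem_Ico.mp hi).1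
      linarith
    rw [h1, h2, Finset.sum_range_sub]
    abel

theorem poly_dist {N : ℕ} (Q : ℕ → EuclideanSpace ℝ (Fin 3)) {s t : unitInterval} (h : s ≤ t) :
    dist (poly N Q t) (poly N Q s) ≤ ∑ i ∈ Finset.range N,
      (cl ((N : ℝ) * (t : ℝ) - i) - cl ((N : ℝ) * (s : ℝ) - i)) * ‖Q (i + 1) - Q i‖ := by
  rw [dist_eq_norm]
  have e : poly N Q t - poly N Q s = ∑ i ∈ Finset.range N,
      (cl ((N : ℝ) * (t : ℝ) - i) - cl ((N : ℝ) * (s : ℝ) - i)) • (Q (i + 1) - Q i) := by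
    simp only [poly, ContinuousMap.coe_mk, sub_smul, Finset.sum_sub_distrib]
    abel
  rw [e]
  refine (norm_sum_le _ _).trans (Finset.sum_le_sum fun i _ => ?_)
  rw [norm_smul, Real.norm_of_nonneg]
  have : cl ((N : ℝ) * (s : ℝ) - i) ≤ cl ((N : ℝ) * (t : ℝ) - i) := by
    apply cl_mono
    have h' : (s : ℝ) ≤ t := h
    have : (N : ℝ) * (s : ℝ) ≤ (N : ℝ) * (t : ℝ) := mul_le_mul_of_nonneg_left h' (Nat.cast_nonneg _)
    linarith
  linarith

theorem poly_length (N : ℕ) (Q : ℕ → EuclideanSpace ℝ (Fin 3)) :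
    eVariationOn (poly N Q) Set.univ ≤
      ENNReal.ofReal (∑ i ∈ Finset.range N, ‖Q (i + 1) - Q i‖) := by
  unfold eVariationOn
  refine iSup_le ?_
  rintro ⟨n, u, hu, -⟩
  have h1 : ∑ k ∈ Finset.range n, edist (poly N Q (u (k + 1))) (poly N Q (u k))
      = ENNReal.ofReal (∑ k ∈ Finset.range n, dist (poly N Q (u (k + 1))) (poly N Q (u k))) := by
    rw [ENNReal.ofReal_sum_of_nonneg (fun _ _ => dist_nonneg)]
    exact Finset.sum_congr rfl fun k _ => edist_dist _ _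
  show ∑ k ∈ Finset.range n, edist (poly N Q (u (k + 1))) (poly N Q (u k)) ≤ _
  rw [h1]
  refine ENNReal.ofReal_le_ofReal ?_
  calc ∑ k ∈ Finset.range n, dist (poly N Q (u (k + 1))) (poly N Q (u k))
      ≤ ∑ k ∈ Finset.range n, ∑ i ∈ Finset.range N,
        (cl ((N : ℝ) * (u (k + 1) : ℝ) - i) - cl ((N : ℝ) * (u k : ℝ) - i)) * ‖Q (i + 1) - Q i‖ :=
        Finset.sum_le_sum fun k _ => poly_dist Q (hu (Nat.le_succ k))
    _ = ∑ i ∈ Finset.range N, (∑ k ∈ Finset.range n,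
        (cl ((N : ℝ) * (u (k + 1) : ℝ) - i) - cl ((N : ℝ) * (u k : ℝ) - i))) * ‖Q (i + 1) - Q i‖ := by
        rw [Finset.sum_comm]
        exact Finset.sum_congr rfl fun i _ => (Finset.sum_mul _ _ _).symm
    _ ≤ ∑ i ∈ Finset.range N, ‖Q (i + 1) - Q i‖ := by
        refine Finset.sum_le_sum fun i _ => ?_
        rw [Finset.sum_range_sub (fun k => cl ((N : ℝ) * (u k : ℝ) - i))]
        have h2 := cl_le ((N : ℝ) * (u n : ℝ) - i)
        have h3 := cl_nonneg ((N : ℝ) * (u 0 : ℝ) - i)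
        have h4 := norm_nonneg (Q (i + 1) - Q i)
        nlinarith

theorem eVariationOn_smul_le {c : ℝ} (hc : 0 ≤ c) (f : unitInterval → EuclideanSpace ℝ (Fin 3)) :
    eVariationOn (fun t => c • f t) Set.univ ≤ ENNReal.ofReal c * eVariationOn f Set.univ := by
  conv_lhs => unfold eVariationOn
  refine iSup_le ?_
  rintro ⟨n, u, hu, hu'⟩
  have h1 : ∑ k ∈ Finset.range n, edist (c • f (u (k + 1))) (c • f (u k))
      = ENNReal.ofReal c * ∑ k ∈ Finset.range n, edist (f (u (k + 1))) (f (u k)) := by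
    rw [Finset.mul_sum]
    refine Finset.sum_congr rfl fun k _ => ?_
    rw [edist_smul₀]
    congr 1
    rw [Real.nnnorm_of_nonneg hc, Real.toNNReal_of_nonneg hc]
  show ∑ k ∈ Finset.range n, edist (c • f (u (k + 1))) (c • f (u k)) ≤ _
  rw [h1]
  gcongr
  exact eVariationOn.sum_le hu hu'

end Pool.Agent.Helper968.Zalgaller
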