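import Mathlib
import Pool.Agent.Helper968.Zalgaller.Check

/-!
Soundness of the checker.
-/

namespace Pool.Agent.Helper968.Zalgaller

open scoped InnerProductSpace

/-- an integer vector as a point of space -/
noncomputable def toE (v : V3) : EuclideanSpace ℝ (Fin 3) :=
  WithLp.toLp 2 ![(v.x : ℝ), (v.y : ℝ), (v.z : ℝ)]

theorem inner_toE (a b : V3) : ⟪toE a, toE b⟫_ℝ = (dot a b : ℝ) := by
  simp [toE, dot, PiLp.inner_apply, Fin.sum_univ_three]
  ring

theorem norm_sq_toE (a : V3) : ‖toE a‖ ^ 2 = (dot a a : ℝ) := by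
  rw [← real_inner_self_eq_norm_sq, inner_toE]

/-- the cone spanned by three integer vectors -/
def InCone (u : EuclideanSpace ℝ (Fin 3)) (a b c : V3) : Prop :=
  ∃ r s t : ℝ, 0 ≤ r ∧ 0 ≤ s ∧ 0 ≤ t ∧ u = r • toE a + s • toE b + t • toE c

theorem InCone.rot {u : EuclideanSpace ℝ (Fin 3)} {a b c : V3} (h : InCone u a b c) :
    InCone u b c a := by
  obtain ⟨r, s, t, hr, hs, ht, rfl⟩ := h
  exact ⟨s, t, r, hs, ht, hr, by abel⟩

theorem good_sound {v g : V3} (h : good v g = true) : (99983 : ℝ) * ‖toE g‖ ≤ ⟪toE v, toE g⟫_ℝ := by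
  rw [good, forceZ_eq, Bool.and_eq_true] at h
  obtain ⟨h1, h2⟩ := h
  have h1 := nn_sound h1
  have h2 := nn_sound h2
  rw [inner_toE]
  have h3 : (0 : ℝ) ≤ (dot v g : ℝ) := by exact_mod_cast h1
  have h4 : (9996600289 : ℝ) * (dot g g : ℝ) ≤ (dot v g : ℝ) * (dot v g : ℝ) := by
    have : (9996600289 : ℤ) * dot g g ≤ dot v g * dot v g := by linarith
    exact_mod_cast this
  rw [← norm_sq_toE] at h4
  have h5 : ((99983 : ℝ) * ‖toE g‖) ^ 2 ≤ (dot v g : ℝ) ^ 2 := by nlinarith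
  exact le_of_sq_le_sq h5 h3 |> fun h => h

theorem comb_eq {α : Type} (al be : ℤ) (a b : V3) (k : V3 → α) :
    comb al be a b k = k ⟨al * a.x + be * b.x, al * a.y + be * b.y, al * a.z + be * b.z⟩ := by
  simp only [comb, forceZ_eq]

theorem toE_comb (al be : ℤ) (a b : V3) :
    toE ⟨al * a.x + be * b.x, al * a.y + be * b.y, al * a.z + be * b.z⟩
      = (al : ℝ) • toE a + (be : ℝ) • toE b := by
  ext i
  fin_cases i <;> simp [toE]

theorem split {u : EuclideanSpace ℝ (Fin 3)} {a b c : V3} (h : InCone u a b c) {al be : ℤ}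
    (hal : 0 < al) (hbe : 0 < be) :
    InCone u a ⟨al * a.x + be * b.x, al * a.y + be * b.y, al * a.z + be * b.z⟩ c ∨
      InCone u ⟨al * a.x + be * b.x, al * a.y + be * b.y, al * a.z + be * b.z⟩ b c := by
  obtain ⟨r, s, t, hr, hs, ht, rfl⟩ := h
  have hal' : (0 : ℝ) < al := by exact_mod_cast hal
  have hbe' : (0 : ℝ) < be := by exact_mod_cast hbe
  rcases le_total (r * be) (s * al) with h1 | h1
  · right
    refine ⟨r / al, s - be * (r / al), t, by positivity, ?_, ht, ?_⟩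
    · have : be * (r / al) ≤ s := by
        rw [mul_div_assoc', div_le_iff₀ hal']
        linarith
      linarith
    · rw [toE_comb]
      have h2 : (r / al) * al = r := by field_simp
      rw [smul_add, smul_smul, smul_smul, h2, sub_smul, mul_comm (be : ℝ) (r / al)]
      abel
  · left
    refine ⟨r - al * (s / be), s / be, t, ?_, by positivity, ht, ?_⟩
    · have : al * (s / be) ≤ r := by
        rw [mul_div_assoc', div_le_iff₀ hbe']
        linarith
      linarith
    · rw [toE_comb]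
      have h2 : (s / be) * be = s := by field_simp
      rw [smul_add, smul_smul, smul_smul, h2, sub_smul, mul_comm (al : ℝ) (s / be)]
      abel

theorem leaf_sound {q : ℕ} {a b c : V3} (h : leaf q a b c = true)
    {u : EuclideanSpace ℝ (Fin 3)} (hu : InCone u a b c) :
    ∃ i j : ℕ, i ≤ 46 ∧ j ≤ 46 ∧ (99983 : ℝ) * ‖u‖ ≤ ⟪toE (Pn i) - toE (Pn j), u⟫_ℝ := by
  rw [leaf, comb_eq, Bool.and_eq_true, Bool.and_eq_true] at h
  obtain ⟨⟨h1, h2⟩, h3⟩ := h
  have h1 := good_sound h1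
  have h2 := good_sound h2
  have h3 := good_sound h3
  obtain ⟨r, s, t, hr, hs, ht, rfl⟩ := hu
  refine ⟨q / 47 % 47, q % 47, by omega, by omega, ?_⟩
  rw [toE_comb] at h1 h2 h3
  have e : ((1 : ℤ) : ℝ) • toE (Pn (q / 47 % 47)) + ((-1 : ℤ) : ℝ) • toE (Pn (q % 47))
      = toE (Pn (q / 47 % 47)) - toE (Pn (q % 47)) := by
    simp [sub_eq_add_neg]
  rw [e] at h1 h2 h3
  rw [inner_add_right, inner_add_right, inner_smul_right, inner_smul_right, inner_smul_right]
  have hn : ‖r • toE a + s • toE b + t • toE c‖ ≤ r * ‖toE a‖ + s * ‖toE b‖ + t * ‖toE c‖ := by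
    refine (norm_add₃_le).trans ?_
    rw [norm_smul, norm_smul, norm_smul, Real.norm_of_nonneg hr, Real.norm_of_nonneg hs,
      Real.norm_of_nonneg ht]
  have g1 := mul_le_mul_of_nonneg_left h1 hr
  have g2 := mul_le_mul_of_nonneg_left h2 hs
  have g3 := mul_le_mul_of_nonneg_left h3 ht
  nlinarith

theorem wt1_pos (t : ℕ) : 0 < wt1 t := by
  unfold wt1; split <;> norm_num

theorem wt2_pos (t : ℕ) : 0 < wt2 t := by
  unfold wt2; split <;> norm_num

theorem chk_sound : ∀ (f : ℕ) (l : List ℕ) (a b c : V3) (l' : List ℕ), chk f l a b c = some l' →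
    ∀ u : EuclideanSpace ℝ (Fin 3), InCone u a b c →
      ∃ i j : ℕ, i ≤ 46 ∧ j ≤ 46 ∧ (99983 : ℝ) * ‖u‖ ≤ ⟪toE (Pn i) - toE (Pn j), u⟫_ℝ
  | 0, _, _, _, _, _, h => by simp [chk] at h
  | _ + 1, [], _, _, _, _, h => by simp [chk] at h
  | f + 1, k :: l, a, b, c, l', h => by
    intro u hu
    rw [chk] at h
    split at h
    · split at h
      · rename_i h1
        exact leaf_sound h1 hu
      · simp at h
    · rw [forceN_eq, forceN_eq] at h
      have hal : 0 < wt1 (k / 3 % 5) * 2 ^ (k / 15 - 15) := by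
        have := wt1_pos (k / 3 % 5)
        positivity
      have hbe : 0 < wt2 (k / 3 % 5) * 2 ^ (15 - k / 15) := by
        have := wt2_pos (k / 3 % 5)
        positivity
      generalize wt1 (k / 3 % 5) * 2 ^ (k / 15 - 15) = al at h hal
      generalize wt2 (k / 3 % 5) * 2 ^ (15 - k / 15) = be at h hbe
      have hal' : (0 : ℤ) < (al : ℤ) := by exact_mod_cast hal
      have hbe' : (0 : ℤ) < (be : ℤ) := by exact_mod_cast hbe
      split at h
      · rw [comb_eq] at h
        rcases split hu hal' hbe' with h1 | h1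
        · split at h
          · simp at h
          · rename_i l1 h2
            exact chk_sound f _ _ _ _ _ h2 u h1
        · split at h
          · simp at h
          · exact chk_sound f _ _ _ _ _ h u h1
      · rw [comb_eq] at h
        rcases split hu.rot hal' hbe' with h1 | h1
        · split at h
          · simp at h
          · rename_i l1 h2
            exact chk_sound f _ _ _ _ _ h2 u h1
        · split at h
          · simp at h
          · exact chk_sound f _ _ _ _ _ h u h1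
      · rw [comb_eq] at h
        rcases split hu.rot.rot hal' hbe' with h1 | h1
        · split at h
          · simp at h
          · rename_i l1 h2
            exact chk_sound f _ _ _ _ _ h2 u h1
        · split at h
          · simp at h
          · exact chk_sound f _ _ _ _ _ h u h1

theorem chkAll_sound {l : List ℕ} {s1 s2 : ℤ} (h : chkAll l s1 s2 = true)
    {u : EuclideanSpace ℝ (Fin 3)} (hu : InCone u ⟨s1, 0, 0⟩ ⟨0, s2, 0⟩ ⟨0, 0, 1⟩) :
    ∃ i j : ℕ, i ≤ 46 ∧ j ≤ 46 ∧ (99983 : ℝ) * ‖u‖ ≤ ⟪toE (Pn i) - toE (Pn j), u⟫_ℝ := by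
  unfold chkAll at h
  split at h
  · rename_i h1
    exact chk_sound _ _ _ _ _ _ h1 u hu
  · simp at h

theorem inCone_octant (u : EuclideanSpace ℝ (Fin 3)) (h : 0 ≤ u 2) :
    InCone u ⟨1, 0, 0⟩ ⟨0, 1, 0⟩ ⟨0, 0, 1⟩ ∨ InCone u ⟨1, 0, 0⟩ ⟨0, -1, 0⟩ ⟨0, 0, 1⟩ ∨
      InCone u ⟨-1, 0, 0⟩ ⟨0, 1, 0⟩ ⟨0, 0, 1⟩ ∨ InCone u ⟨-1, 0, 0⟩ ⟨0, -1, 0⟩ ⟨0, 0, 1⟩ := by
  rcases le_total 0 (u 0) with h0 | h0 <;> rcases le_total 0 (u 1) with h1 | h1
  · left
    refine ⟨u 0, u 1, u 2, h0, h1, h, ?_⟩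
    ext i; fin_cases i <;> simp [toE]
  · right; left
    refine ⟨u 0, -u 1, u 2, h0, by linarith, h, ?_⟩
    ext i; fin_cases i <;> simp [toE]
  · right; right; left
    refine ⟨-u 0, u 1, u 2, by linarith, h1, h, ?_⟩
    ext i; fin_cases i <;> simp [toE]
  · right; right; right
    refine ⟨-u 0, -u 1, u 2, by linarith, by linarith, h, ?_⟩
    ext i; fin_cases i <;> simp [toE]

theorem wide_up (u : EuclideanSpace ℝ (Fin 3)) (h : 0 ≤ u 2) :
    ∃ i j : ℕ, i ≤ 46 ∧ j ≤ 46 ∧ (99983 : ℝ) * ‖u‖ ≤ ⟪toE (Pn i) - toE (Pn j), u⟫_ℝ := by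
  rcases inCone_octant u h with h | h | h | h
  · exact chkAll_sound okPP h
  · exact chkAll_sound okPM h
  · exact chkAll_sound okMP h
  · exact chkAll_sound okMM h

theorem wide_all (u : EuclideanSpace ℝ (Fin 3)) :
    ∃ i j : ℕ, i ≤ 46 ∧ j ≤ 46 ∧ (99983 : ℝ) * ‖u‖ ≤ ⟪toE (Pn i) - toE (Pn j), u⟫_ℝ := by
  rcases le_total 0 (u 2) with h | h
  · exact wide_up u h
  · obtain ⟨i, j, hi, hj, hij⟩ := wide_up (-u) (by simpa using h)
    refine ⟨j, i, hj, hi, ?_⟩
    rw [norm_neg, inner_neg_right] at hij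
    rw [← neg_sub, inner_neg_left]
    exact hij

end Pool.Agent.Helper968.Zalgaller
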